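import Pool.Agent.H583R2.Bin
import Pool.Agent.NPC.Classes

/-!
Bridge between Mathlib's polynomial time functions on bit strings and the typed polynomial time
library `H583R2` (the lemmas of this file are copied from `H528R2.Hier`, where they were proved by
helper528).
-/

namespace Pool.Agent.H545R2.KS

open Turing
open Pool.Agent.H583R2
open Pool.Agent.NPC (PolyTime pairBits InNP InP Reduces)

/-! ### polynomial bounds -/

theorem poly_le_pow (p : Polynomial ℕ) : ∃ k, ∀ n, p.eval n ≤ (n + 2) ^ k := by
  induction p using Polynomial.induction_on' with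
  | add p q hp hq =>
    obtain ⟨k, hk⟩ := hp
    obtain ⟨l, hl⟩ := hq
    refine ⟨max k l + 1, fun n => ?_⟩
    rw [Polynomial.eval_add, pow_succ]
    have h1 : (n + 2) ^ k ≤ (n + 2) ^ (max k l) :=
      Nat.pow_le_pow_right (by omega) (le_max_left _ _)
    have h2 : (n + 2) ^ l ≤ (n + 2) ^ (max k l) :=
      Nat.pow_le_pow_right (by omega) (le_max_right _ _)
    have h3 := hk n
    have h4 := hl n
    nlinarith [Nat.zero_le ((n + 2) ^ (max k l) * n)]
  | monomial m a =>
    refine ⟨a + m, fun n => ?_⟩
    rw [Polynomial.eval_monomial, pow_add]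
    exact Nat.mul_le_mul (Nat.lt_pow_self (by omega)).le (Nat.pow_le_pow_left (by omega) m)

theorem eval_mono (p : Polynomial ℕ) {m n : ℕ} (h : m ≤ n) : p.eval m ≤ p.eval n := by
  induction p using Polynomial.induction_on' with
  | add p q hp hq =>
    rw [Polynomial.eval_add, Polynomial.eval_add]
    exact Nat.add_le_add hp hq
  | monomial k a =>
    rw [Polynomial.eval_monomial, Polynomial.eval_monomial]
    exact Nat.mul_le_mul_left _ (Nat.pow_le_pow_left h k)

section
variable {α : Type} [TEnc α]

theorem pf_pow {n : α → ℕ} (hn : PF n) (k : ℕ) : PF (fun a => n a ^ k) := by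
  induction k with
  | zero => exact (PF.const 1).congr (fun a => (pow_zero _).symm)
  | succ k ih => exact (PF.mul ih hn).congr (fun a => (pow_succ _ _).symm)

theorem pf_eval {n : α → ℕ} (hn : PF n) (p : Polynomial ℕ) : PF (fun a => p.eval (n a)) := by
  induction p using Polynomial.induction_on' with
  | add p q hp hq => exact (PF.add hp hq).congr (fun a => (Polynomial.eval_add).symm)
  | monomial m c =>
    exact (PF.mul (PF.const c) (pf_pow hn m)).congr (fun a => (Polynomial.eval_monomial).symm)

theorem pf_pairBits {x w : α → List Bool} (hx : PF x) (hw : PF w) :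
    PF (fun a => pairBits (x a) (w a)) :=
  PF.append (PF.flatMap (f := fun _ b => [true, b]) hx
    (PF.cons (PF.const true) (PF.cons PF.snd (PF.const [])))) (PF.cons (PF.const false) hw)

end

theorem spl_pairBits (x w : List Bool) : spl (pairBits x w) = (x, w) := by
  unfold spl pairBits
  rw [List.foldl_append, spl_aux1, List.foldl_cons]
  have e : splStep ((false, false), (x.reverse ++ [], [])) false =
    ((true, false), (x.reverse ++ [], [])) := rfl
  rw [e, spl_aux2]
  simp

theorem pairBits_length (x w : List Bool) : (pairBits x w).length = 2 * x.length + 1 + w.length := by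
  unfold pairBits
  rw [List.length_append, List.length_flatMap]
  simp
  omega

theorem pairBits_inj {x w x' w' : List Bool} (h : pairBits x w = pairBits x' w') :
    x = x' ∧ w = w' := by
  have h1 := congrArg spl h
  rw [spl_pairBits, spl_pairBits] at h1
  exact Prod.mk.inj h1

/-! ### the two notions of polynomial time -/

theorem code_of_polyTime {V : List Bool → List Bool} (h : PolyTime V) :
    ∃ (c : Code) (k : ℕ), ∀ x t, (x.length + 2) ^ k ≤ t → U c x t = some (V x) := by
  obtain ⟨M⟩ := h
  obtain ⟨k, hk⟩ := poly_le_pow (Polynomial.C (maxDep M.tm) * M.time)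
  refine ⟨codeOf M.inputAlphabet M.outputAlphabet, k, fun x t ht => ?_⟩
  refine U_codeOf M.inputAlphabet M.outputAlphabet x (V x) (M.time.eval x.length)
    (M.outputsFun x) t ?_
  have := hk x.length
  rw [Polynomial.eval_mul, Polynomial.eval_C] at this
  exact this.trans ht

theorem pf_of_polyTime {V : List Bool → List Bool} (h : PolyTime V) : PF V := by
  obtain ⟨c, k, hc⟩ := code_of_polyTime h
  have h1 : PF (fun x : List Bool => (U c x ((x.length + 2) ^ k)).getD []) :=
    PF.getD (PF.U.comp (PF.pair (PF.const c) (PF.pair PF.id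
      (pf_pow (PF.add (PF.length PF.id) (PF.const 2)) k)))) (PF.const [])
  refine h1.congr (fun x => ?_)
  rw [hc x _ le_rfl]
  rfl

theorem polyTime_of_pf {f : List Bool → List Bool} (h : PF f) : PolyTime f := by
  obtain ⟨c, ⟨k, hk⟩, hc⟩ := h
  obtain ⟨M, hM⟩ := hasTM hc (fun n => (Polynomial.C 60 * Polynomial.X +
    Polynomial.C 13 * (Polynomial.C 4 * Polynomial.X + Polynomial.C 3) ^ k +
    Polynomial.C 40 : Polynomial ℕ).eval n) (by
    intro x
    simp only [Polynomial.eval_add, Polynomial.eval_mul, Polynomial.eval_C, Polynomial.eval_X,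
      Polynomial.eval_pow]
    have h1 := hk x
    have h2 : (sz x + 2) ^ k ≤ (4 * x.length + 3) ^ k :=
      Nat.pow_le_pow_left (by have := sz_str_le x; omega) k
    have h3 := h1.trans h2
    omega)
  refine ⟨{ toTM2ComputableAux := M.toTM2ComputableAux
            time := Polynomial.C 60 * Polynomial.X +
              Polynomial.C 13 * (Polynomial.C 4 * Polynomial.X + Polynomial.C 3) ^ k +
              Polynomial.C 40
            outputsFun := fun x => ?_ }⟩
  have := M.outputsFun x
  rw [hM] at this
  exact this

end Pool.Agent.H545R2.KS
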