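import Pool.Agent.NPC.Classes

/-!
Generalized Kolmogorov classes and polynomial separability. Turing machines are Mathlib's
multi-stack machines; the classes `P` and `NP` are those of `Pool.Agent.NPC`.
-/

namespace Pool.Agent.H545R2.KS

open Turing
open Pool.Agent.NPC

/-- A Turing machine (in the sense of Mathlib) with binary input and binary output. -/
abbrev Machine : Type 1 := TM2ComputableAux Bool Bool

/-- The machine `M`, started on input `y`, halts with output `x` within `t` steps. -/
def Outputs (M : Machine) (y x : List Bool) (t : ℕ) : Prop :=
  Nonempty (TM2OutputsInTime M.tm (y.map M.inputAlphabet.invFun)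
    (some (x.map M.outputAlphabet.invFun)) t)

/-- `U` is a universal Turing machine: for every machine `M` there is a constant `c` such that
whatever `M` outputs on an input `y` within `t` steps, `U` outputs on some input `y'` of length at
most `(|y| + 2) ^ c` within `(t + |y| + 2) ^ c` steps. (For the usual universal machines, `y'`
consists of a code of `M` followed by `y`.) -/
def Universal (U : Machine) : Prop :=
  ∀ M : Machine, ∃ c : ℕ, ∀ (y x : List Bool) (t : ℕ), Outputs M y x t →
    ∃ y' : List Bool, y'.length ≤ (y.length + 2) ^ c ∧ Outputs U y' x ((t + y.length + 2) ^ c)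

/-- The generalized Kolmogorov class `K[g(n), G(n)]`: the strings `x` that `U` outputs on some
input of length at most `g |x|` within fewer than `G |x|` steps. -/
def K (U : Machine) (g G : ℕ → ℕ) : Set (List Bool) :=
  {x | ∃ y : List Bool, y.length ≤ g x.length ∧ ∃ t < G x.length, Outputs U y x t}

/-- The sets `A` and `B` are polynomially separable: some set in `P` contains `A` and is disjoint
from `B`. -/
def Separable (A B : Set (List Bool)) : Prop := ∃ S, InP S ∧ A ⊆ S ∧ S ∩ B = ∅

/-- `P = NP`. -/
def PeqNP : Prop := ∀ L, InNP L → InP L

/-- `A` is `NP`-complete under polynomial-time many-one reductions. -/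
def NPComplete (A : Set (List Bool)) : Prop := InNP A ∧ NPHard A

/-- `A` has a polynomial-time padding function: from `x` and a string `u` it computes a string of
length at least `|u|` which belongs to `A` if and only if `x` does. -/
def Paddable (A : Set (List Bool)) : Prop :=
  ∃ P : List Bool → List Bool, PolyTime P ∧
    ∀ x u, (P (pairBits x u) ∈ A ↔ x ∈ A) ∧ u.length ≤ (P (pairBits x u)).length

end Pool.Agent.H545R2.KS
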