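import Pool.Agent.H545R2.KS.Base

/-!
Machines with doubly exponential running time (`exp_fold` and `has_exp` are copied from
`H583R2.Expo`, where they were proved by helper583).
-/

namespace Pool.Agent.H545R2.KS

open Turing
open Pool.Agent.H583R2

section
variable {α β γ δ σ : Type} [TEnc α] [TEnc β] [TEnc γ] [TEnc δ] [TEnc σ]

theorem pb_of_sz {n : α → ℕ} (h : PB (fun a => sz (n a))) : PB n :=
  h.mono (fun a => by rw [sz_nat]; omega)

omit [TEnc α] in
theorem exp_fold (m : ℕ) (a : α) (v : ℕ) :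
    (List.replicate m ()).foldl (fun (s : α × ℕ) (_ : Unit) => (s.1, s.2 + s.2)) (a, v) =
      (a, v * 2 ^ m) := by
  induction m generalizing v with
  | zero => simp
  | succ m ih =>
    rw [List.replicate_succ, List.foldl_cons, ih, pow_succ]
    congr 1
    ring

/-- a polynomial-time function of `a` and `2 ^ m a` -/
theorem has_exp {m : α → ℕ} (hm : PF m) {f : α × ℕ → β} (hf : PF f) :
    ∃ C : α × ℕ → ℕ, PB C ∧ Has (fun a => f (a, 2 ^ m a)) (fun a => C (a, 2 ^ m a)) := by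
  have hg : PF (fun a => (List.replicate (m a) (), (a, 1))) :=
    PF.pair (PF.toList.comp hm) (PF.pair PF.id (PF.const 1))
  have hF : PF (fun q : Unit × (α × ℕ) => (q.2.1, q.2.2 + q.2.2)) :=
    PF.pair (PF.fst' PF.snd) (PF.add (PF.snd' PF.snd) (PF.snd' PF.snd))
  have hgs := hg.size
  have hms := pb_of_sz hm.size
  obtain ⟨cg, hcg, hg⟩ := hg
  obtain ⟨cF, ⟨k, hcF⟩, hF⟩ := hF
  obtain ⟨cf, hcf, hf⟩ := hf
  refine ⟨fun p => cg p.1 + (10 * sz (List.replicate (m p.1) (), (p.1, 1)) + 12 +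
    m p.1 * (10 * (2 * p.2 + sz p.1 + 2) + 10 + (2 * (2 * p.2 + sz p.1 + 2) + 3) ^ k)) + cf p,
    ?_, ?_⟩
  · have h2 : PB (fun p : α × ℕ => 2 * p.2 + sz p.1 + 2) :=
      (((PB.const 2).mul (pb_of_sz (PF.snd.size))).add (PB.szId.fst)).add (PB.const 2)
    exact (hcg.fst.add ((((PB.const 10).mul hgs.fst).add (PB.const 12)).add
      (hms.fst.mul ((((PB.const 10).mul h2).add (PB.const 10)).add
        ((((PB.const 2).mul h2).add (PB.const 3)).pow k))))).add hcf
  · have h1 := Has.comp (Has.fold hF) hg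
    have h2 : Has (fun a : α => (a, 2 ^ m a)) (fun a => cg a +
        (10 * sz (List.replicate (m a) (), (a, 1)) + 12 +
          foldCost (fun q : Unit × (α × ℕ) => (q.2.1, q.2.2 + q.2.2)) cF
            (List.replicate (m a) ()) (a, 1))) := by
      have e : (fun a : α => (List.replicate (m a) (), (a, 1)).1.foldl
          (fun s b => (fun q : Unit × (α × ℕ) => (q.2.1, q.2.2 + q.2.2)) (b, s))
          (List.replicate (m a) (), (a, 1)).2) = fun a => (a, 2 ^ m a) := by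
        funext a
        rw [show (fun (s : α × ℕ) (b : Unit) =>
          (fun q : Unit × (α × ℕ) => (q.2.1, q.2.2 + q.2.2)) (b, s)) =
          fun (s : α × ℕ) (_ : Unit) => (s.1, s.2 + s.2) from rfl, exp_fold]
        simp
      rw [← e]
      exact h1
    refine (Has.comp hf h2).mono ?_
    intro a
    have h3 := foldCost_le (fun q : Unit × (α × ℕ) => (q.2.1, q.2.2 + q.2.2)) cF k
      (2 * 2 ^ m a + sz a + 2) hcF (List.replicate (m a) ()) (a, 1) (by
        intro j hj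
        rw [List.length_replicate] at hj
        rw [List.take_replicate, Nat.min_eq_left hj]
        rw [show (fun (s : α × ℕ) (b : Unit) =>
          (fun q : Unit × (α × ℕ) => (q.2.1, q.2.2 + q.2.2)) (b, s)) =
          fun (s : α × ℕ) (_ : Unit) => (s.1, s.2 + s.2) from rfl, exp_fold]
        rw [sz_pair, sz_nat, one_mul]
        have : 2 ^ j ≤ 2 ^ m a := Nat.pow_le_pow_right (by norm_num) hj
        omega) (by
        intro x _
        rw [sz_unit]
        omega)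
    rw [List.length_replicate] at h3
    dsimp only
    omega


end

/-- A polynomial time function of `2 ^ 2 ^ j` and a bit, as a machine with input `b 1 ^ j`. -/
theorem tm_dexp {h : ℕ × Bool → List Bool} (hh : PF h) :
    ∃ (M : TM2ComputableInTime (id : List Bool → List Bool) (id : List Bool → List Bool)
      (fun y : List Bool => h (2 ^ (2 ^ (y.length - 1)), y.headD false))) (E : ℕ),
      ∀ j, M.time (j + 1) + (j + 1) + 2 ≤ (2 ^ (2 ^ j)) ^ E := by
  obtain ⟨C1, ⟨k1, hC1⟩, h1⟩ := has_exp (α := List Bool) (m := fun y => y.length - 1)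
    (PF.pred (PF.length PF.id)) (f := fun a : List Bool × ℕ => a) PF.id
  obtain ⟨C2, ⟨k2, hC2⟩, h2⟩ := has_exp (α := List Bool × ℕ) (m := fun a => a.2) PF.snd
    (f := fun q : (List Bool × ℕ) × ℕ => h (q.2, q.1.1.headD false))
    (hh.comp (PF.pair PF.snd (PF.headF (PF.fst' PF.fst))))
  have h3 := Has.comp h2 h1
  obtain ⟨M, hM⟩ := hasTM h3 (fun n => 60 * n +
    13 * ((4 * n + 2 * 2 ^ (n - 1) + 5) ^ k1 +
      (4 * n + 2 * 2 ^ (n - 1) + 2 * 2 ^ (2 ^ (n - 1)) + 7) ^ k2) + 40) (by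
    intro y
    have g0 := sz_str_le y
    have g1 := hC1 (y, 2 ^ (y.length - 1))
    have g2 := hC2 ((y, 2 ^ (y.length - 1)), 2 ^ (2 ^ (y.length - 1)))
    have g3 : (sz (y, 2 ^ (y.length - 1)) + 2) ^ k1 ≤
        (4 * y.length + 2 * 2 ^ (y.length - 1) + 5) ^ k1 :=
      Nat.pow_le_pow_left (by rw [sz_pair, sz_nat]; omega) _
    have g4 : (sz ((y, 2 ^ (y.length - 1)), 2 ^ (2 ^ (y.length - 1))) + 2) ^ k2 ≤
        (4 * y.length + 2 * 2 ^ (y.length - 1) + 2 * 2 ^ (2 ^ (y.length - 1)) + 7) ^ k2 :=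
      Nat.pow_le_pow_left (by rw [sz_pair, sz_pair, sz_nat, sz_nat]; omega) _
    dsimp only at *
    omega)
  refine ⟨M, 5 * (k1 + k2) + 9, fun j => ?_⟩
  rw [hM]
  beta_reduce
  rw [Nat.add_sub_cancel]
  set N := 2 ^ (2 ^ j) with hN
  have hj1 : j + 1 ≤ 2 ^ j := Nat.lt_two_pow_self
  have hj2 : 2 ^ j ≤ N := (Nat.lt_two_pow_self).le
  have hN2 : 2 ≤ N := by
    calc 2 = 2 ^ 1 := rfl
      _ ≤ 2 ^ (2 ^ j) := Nat.pow_le_pow_right (by norm_num) Nat.one_le_two_pow
  have h15 : 16 * N ≤ N ^ 5 := by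
    have h4 : 2 ^ 4 ≤ N ^ 4 := Nat.pow_le_pow_left hN2 4
    calc 16 * N ≤ N ^ 4 * N := Nat.mul_le_mul_right _ h4
      _ = N ^ 5 := by ring
  have e1 : (4 * (j + 1) + 2 * 2 ^ j + 5) ^ k1 ≤ N ^ (5 * (k1 + k2)) := by
    calc (4 * (j + 1) + 2 * 2 ^ j + 5) ^ k1 ≤ (N ^ 5) ^ k1 :=
          Nat.pow_le_pow_left (by omega) _
      _ = N ^ (5 * k1) := by rw [pow_mul]
      _ ≤ _ := Nat.pow_le_pow_right (by omega) (by omega)
  have e2 : (4 * (j + 1) + 2 * 2 ^ j + 2 * N + 7) ^ k2 ≤ N ^ (5 * (k1 + k2)) := by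
    calc (4 * (j + 1) + 2 * 2 ^ j + 2 * N + 7) ^ k2 ≤ (N ^ 5) ^ k2 :=
          Nat.pow_le_pow_left (by omega) _
      _ = N ^ (5 * k2) := by rw [pow_mul]
      _ ≤ _ := Nat.pow_le_pow_right (by omega) (by omega)
  have e3 : 256 * (N ^ (5 * (k1 + k2)) * N) ≤ N ^ (5 * (k1 + k2) + 9) := by
    have h4 : 2 ^ 8 ≤ N ^ 8 := Nat.pow_le_pow_left hN2 8
    calc 256 * (N ^ (5 * (k1 + k2)) * N) ≤ N ^ 8 * (N ^ (5 * (k1 + k2)) * N) :=
          Nat.mul_le_mul_right _ h4
      _ = N ^ (5 * (k1 + k2) + 9) := by ring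
  have e4 : 1 ≤ N ^ (5 * (k1 + k2)) := Nat.one_le_pow _ _ (by omega)
  have e5 : N ^ (5 * (k1 + k2)) ≤ N ^ (5 * (k1 + k2)) * N := Nat.le_mul_of_pos_right _ (by omega)
  have e6 : N ≤ N ^ (5 * (k1 + k2)) * N := Nat.le_mul_of_pos_left _ (by omega)
  generalize N ^ (5 * (k1 + k2)) * N = Y at *
  generalize N ^ (5 * (k1 + k2)) = Z at *
  omega

end Pool.Agent.H545R2.KS
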