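import Pool.Agent.H545R2.KS.Defs

/-!
Boolean formulas and the language `SAT`. Formulas are written in postfix notation; the list of
symbols is coded by a bit string in the standard way of `Pool.Agent.NPC`.
-/

namespace Pool.Agent.H545R2.KS

open Pool.Agent.NPC

/-- Boolean formulas. -/
inductive Fm : Type
  | var (n : ℕ) : Fm
  | neg (a : Fm) : Fm
  | and (a b : Fm) : Fm
  | or (a b : Fm) : Fm

/-- The value of a formula under the assignment `τ`. -/
def Fm.eval (τ : ℕ → Bool) : Fm → Bool
  | .var n => τ n
  | .neg a => !(a.eval τ)
  | .and a b => a.eval τ && b.eval τ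
  | .or a b => a.eval τ || b.eval τ

/-- Symbols: variables `inl n`, negation `inr none`, conjunction `inr (some true)` and disjunction
`inr (some false)`. -/
abbrev Tok : Type := ℕ ⊕ Option Bool

/-- Postfix notation of a formula. -/
def Fm.post : Fm → List Tok
  | .var n => [Sum.inl n]
  | .neg a => a.post ++ [Sum.inr none]
  | .and a b => a.post ++ b.post ++ [Sum.inr (some true)]
  | .or a b => a.post ++ b.post ++ [Sum.inr (some false)]

/-- The set of the codes of the satisfiable Boolean formulas. -/
def SAT : Set (List Bool) := {x | ∃ φ : Fm, bits φ.post = x ∧ ∃ τ : ℕ → Bool, φ.eval τ = true}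

end Pool.Agent.H545R2.KS
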