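import Pool.Agent.H545R2.KS.Refute
import Pool.Agent.H545R2.KS.Dexp
import Pool.Agent.H545R2.KS.Defs

/-!
The main theorem: if `P ≠ NP`, every subset in `P` of an `NP`-complete paddable set `A` misses
infinitely many elements of `A` of very small polynomial-time bounded Kolmogorov complexity.
-/

namespace Pool.Agent.H545R2.KS

open Turing
open Pool.Agent.H583R2
open Pool.Agent.NPC (PolyTime pairBits InNP InP Reduces NPHard)

/-- a number `j` with `2 ^ 2 ^ j ≤ n ≤ (2 ^ 2 ^ j) ^ 2` -/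
theorem exists_scale (J n : ℕ) (h : 2 ^ (2 ^ J) ≤ n) :
    ∃ j, J ≤ j ∧ 2 ^ (2 ^ j) ≤ n ∧ n ≤ (2 ^ (2 ^ j)) ^ 2 := by
  have hn : n ≠ 0 := by
    have : 0 < 2 ^ (2 ^ J) := by positivity
    omega
  have h1 : 2 ^ J ≤ Nat.log 2 n := by
    rw [Nat.le_log_iff_pow_le (by norm_num) hn]
    exact h
  have h2 : Nat.log 2 n ≠ 0 := by
    have : 0 < 2 ^ J := by positivity
    omega
  refine ⟨Nat.log 2 (Nat.log 2 n), ?_, ?_, ?_⟩
  · rw [Nat.le_log_iff_pow_le (by norm_num) h2]
    exact h1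
  · have h3 := Nat.pow_log_le_self 2 h2
    exact (Nat.pow_le_pow_right (by norm_num) h3).trans (Nat.pow_log_le_self 2 hn)
  · have h3 := Nat.lt_pow_succ_log_self (b := 2) (by norm_num) (Nat.log 2 n)
    have h4 := Nat.lt_pow_succ_log_self (b := 2) (by norm_num) n
    rw [← pow_mul, ← pow_succ]
    exact h4.le.trans (Nat.pow_le_pow_right (by norm_num) h3)

theorem exists_long {A : Set (List Bool)} (h : A.Infinite) (n : ℕ) : ∃ z ∈ A, n ≤ z.length := by
  by_contra hcon
  push Not at hcon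
  exact h ((List.finite_length_lt Bool n).subset hcon)

theorem loglog_ge {j n : ℕ} (h : 2 ^ (2 ^ j) ≤ n) : j ≤ Nat.log 2 (Nat.log 2 n) := by
  have hn : n ≠ 0 := by
    have : 0 < 2 ^ (2 ^ j) := by positivity
    omega
  have h1 : 2 ^ j ≤ Nat.log 2 n := by
    rw [Nat.le_log_iff_pow_le (by norm_num) hn]
    exact h
  have h2 : Nat.log 2 n ≠ 0 := by
    have : 0 < 2 ^ j := by positivity
    omega
  rw [Nat.le_log_iff_pow_le (by norm_num) h2]
  exact h1

theorem hard_simple {U : Machine} (hU : Universal U) {A S : Set (List Bool)} (hA : InNP A)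
    (hAh : NPHard A) (hpad : Paddable A) (hS : InP S) (hSA : S ⊆ A) (hinf : (A \ S).Infinite) :
    ∃ c, {x | x ∈ K U (fun n => (Nat.log 2 (Nat.log 2 n)) ^ c) (fun n => n ^ c) ∧
      x ∈ A ∧ x ∉ S}.Infinite := by
  obtain ⟨V, p, hV, hVA⟩ := hA
  obtain ⟨D, hD, hDS⟩ := hS
  obtain ⟨P, hP, hPA⟩ := hpad
  -- the reduction depends only on the first three components
  let d0 : Dat := ⟨V, p, D, fun x => x, P, pf_of_polyTime hV, pf_of_polyTime hD, PF.id,
    pf_of_polyTime hP⟩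
  obtain ⟨f, hf, hfL⟩ := hAh _ (LL_inNP d0)
  let d : Dat := ⟨V, p, D, f, P, pf_of_polyTime hV, pf_of_polyTime hD, pf_of_polyTime hf,
    pf_of_polyTime hP⟩
  have hLL : LL d = LL d0 := rfl
  obtain ⟨M, E, hM⟩ := tm_dexp (h := fun q => hh d q.1 q.2) (pf_hh d PF.fst PF.snd)
  obtain ⟨c, hc⟩ := hU M.toTM2ComputableAux
  refine ⟨2 * c + E * c + 1, ?_⟩
  have key : ∀ J, ∃ x, (x ∈ K U (fun n => (Nat.log 2 (Nat.log 2 n)) ^ (2 * c + E * c + 1))
      (fun n => n ^ (2 * c + E * c + 1)) ∧ x ∈ A ∧ x ∉ S) ∧ J ≤ x.length := by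
    intro J
    obtain ⟨z, ⟨hz1, hz2⟩, hz3⟩ := exists_long hinf (2 ^ (2 ^ (J + 3)))
    obtain ⟨j, hj1, hj2, hj3⟩ := exists_scale (J + 3) z.length hz3
    obtain ⟨b, hb1, hb2, hb3⟩ := hard_exists d hVA hDS hSA (fun x => by rw [hLL]; exact hfL x)
      (fun x u => (hPA x u).1) (fun x u => (hPA x u).2) (2 ^ (2 ^ j)) ⟨z, hz1, hz2, hj2, hj3⟩
    set x := hh d (2 ^ (2 ^ j)) b with hx
    have hout : Outputs M.toTM2ComputableAux (b :: List.replicate j true) x
        (M.time (j + 1)) := by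
      have h1 := M.outputsFun (b :: List.replicate j true)
      have h2 : (id (b :: List.replicate j true) : List Bool).length = j + 1 := by simp
      rw [h2] at h1
      have h3 : hh d (2 ^ (2 ^ ((b :: List.replicate j true).length - 1)))
          ((b :: List.replicate j true).headD false) = x := by
        rw [hx, List.length_cons, List.length_replicate, Nat.add_sub_cancel, List.headD_cons]
      rw [h3] at h1
      exact ⟨h1⟩
    obtain ⟨y', hy1, hy2⟩ := hc _ _ _ hout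
    rw [List.length_cons, List.length_replicate] at hy1 hy2
    have hN2 : 2 ≤ 2 ^ (2 ^ j) := by
      calc 2 = 2 ^ 1 := rfl
        _ ≤ 2 ^ (2 ^ j) := Nat.pow_le_pow_right (by norm_num) Nat.one_le_two_pow
    have hJ : J ≤ 2 ^ (2 ^ j) := by
      have h1 : j < 2 ^ j := Nat.lt_two_pow_self
      have h2 : 2 ^ j < 2 ^ (2 ^ j) := Nat.lt_two_pow_self
      omega
    refine ⟨x, ⟨⟨y', ?_, _, ?_, hy2⟩, hb1, hb2⟩, hJ.trans hb3⟩
    · have h1 := loglog_ge hb3
      beta_reduce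
      calc y'.length ≤ (j + 1 + 2) ^ c := hy1
        _ ≤ (j ^ 2) ^ c := Nat.pow_le_pow_left (by nlinarith) _
        _ = j ^ (2 * c) := by rw [pow_mul]
        _ ≤ j ^ (2 * c + E * c + 1) := Nat.pow_le_pow_right (by omega) (by omega)
        _ ≤ _ := Nat.pow_le_pow_left h1 _
    · beta_reduce
      calc (M.time (j + 1) + (j + 1) + 2) ^ c ≤ ((2 ^ (2 ^ j)) ^ E) ^ c :=
            Nat.pow_le_pow_left (hM j) _
        _ = (2 ^ (2 ^ j)) ^ (E * c) := by rw [pow_mul]
        _ < (2 ^ (2 ^ j)) ^ (2 * c + E * c + 1) := Nat.pow_lt_pow_right (by omega) (by omega)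
        _ ≤ _ := Nat.pow_le_pow_left hb3 _
  intro hfin
  obtain ⟨B, hB⟩ := (hfin.image List.length).bddAbove
  obtain ⟨x, hx1, hx2⟩ := key (B + 1)
  have := hB (Set.mem_image_of_mem _ hx1)
  omega

theorem inP_of_finite_diff {A S : Set (List Bool)} (hS : InP S) (hSA : S ⊆ A)
    (hfin : (A \ S).Finite) : InP A := by
  obtain ⟨D, hD, hDS⟩ := hS
  refine ⟨fun x => if ((hfin.toFinset.toList.any (fun y => x == y)) || (D x == [true])) then [true]
    else [], polyTime_of_pf ?_, fun x => ?_⟩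
  · exact PF.ite (PF.or (PF.any (l := fun _ : List Bool => hfin.toFinset.toList)
      (f := fun x y => x == y) (PF.const _) (PF.beqStr PF.fst PF.snd))
      (PF.beqStr ((pf_of_polyTime hD).comp PF.id) (PF.const _))) (PF.const _) (PF.const _)
  · have h1 : hfin.toFinset.toList.any (fun y => x == y) = true ↔ x ∈ A \ S := by
      simp
    beta_reduce
    by_cases hx : (hfin.toFinset.toList.any (fun y => x == y) || (D x == [true])) = true
    · rw [if_pos hx]
      simp only [iff_true]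
      rw [Bool.or_eq_true, h1, beq_iff_eq, ← hDS] at hx
      exact hx.elim (fun h => h.1) (fun h => hSA h)
    · rw [if_neg hx]
      rw [Bool.or_eq_true, h1, beq_iff_eq, ← hDS] at hx
      constructor
      · intro h
        by_cases hxS : x ∈ S
        · exact absurd (Or.inr hxS) hx
        · exact absurd (Or.inl ⟨h, hxS⟩) hx
      · intro h
        simp at h

/-- the collapse -/
theorem peqNP_of_inP {A : Set (List Bool)} (hAh : NPHard A) (h : InP A) : PeqNP := by
  intro L hL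
  obtain ⟨f, hf, hfL⟩ := hAh L hL
  obtain ⟨D, hD, hDA⟩ := h
  exact ⟨fun x => D (f x), polyTime_of_pf ((pf_of_polyTime hD).comp (pf_of_polyTime hf)),
    fun x => (hfL x).trans (hDA _)⟩

theorem not_sep_subset {A S : Set (List Bool)} : S ∩ Aᶜ = ∅ ↔ S ⊆ A := by
  rw [← Set.disjoint_iff_inter_eq_empty, Set.disjoint_compl_right_iff_subset]

/-- hard instances of small complexity -/
theorem refuter {U : Machine} (hU : Universal U) {A S : Set (List Bool)} (hA : NPComplete A)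
    (hpad : Paddable A) (hP : ¬ PeqNP) (hS : InP S) (hSA : S ⊆ A) :
    ∃ c, {x | x ∈ K U (fun n => (Nat.log 2 (Nat.log 2 n)) ^ c) (fun n => n ^ c) ∧
      x ∈ A ∧ x ∉ S}.Infinite := by
  refine hard_simple hU hA.1 hA.2 hpad hS hSA (fun hfin => hP ?_)
  exact peqNP_of_inP hA.2 (inP_of_finite_diff hS hSA hfin)

/-- the general equivalence -/
theorem sep_iff {U : Machine} (hU : Universal U) {A : Set (List Bool)} (hA : NPComplete A)
    (hpad : Paddable A) {g G : ℕ → ℕ}
    (hg : ∀ c, ∃ n₀, ∀ n ≥ n₀, (Nat.log 2 (Nat.log 2 n)) ^ c ≤ g n)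
    (hG : ∀ c, ∃ n₀, ∀ n ≥ n₀, n ^ c ≤ G n) :
    Separable (K U g G ∩ A) Aᶜ ↔ PeqNP := by
  constructor
  · rintro ⟨S, hS, hKS, hSA⟩
    rw [not_sep_subset] at hSA
    by_contra hP
    obtain ⟨c, hc⟩ := refuter hU hA hpad hP hS hSA
    obtain ⟨n1, h1⟩ := hg c
    obtain ⟨n2, h2⟩ := hG c
    obtain ⟨x, ⟨⟨y, hy, t, ht, hout⟩, hxA, hxS⟩, hx⟩ := exists_long hc (max n1 n2)
    exact hxS (hKS ⟨⟨y, hy.trans (h1 _ ((le_max_left _ _).trans hx)), t,
      lt_of_lt_of_le ht (h2 _ ((le_max_right _ _).trans hx)), hout⟩, hxA⟩)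
  · intro hP
    exact ⟨A, hP A hA.1, Set.inter_subset_right, Set.inter_compl_self A⟩

end Pool.Agent.H545R2.KS
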