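import Pool.Agent.H545R2.KS.Base

/-!
Search for hard instances: given an `NP` predicate, a candidate sub-decider `S` of a complete set
`A`, a prefix search guided by `S` either finds a witness or produces an element of `A \ S`.
-/

namespace Pool.Agent.H545R2.KS

open Turing
open Pool.Agent.H583R2
open Pool.Agent.NPC (PolyTime pairBits InNP InP Reduces NPHard)

/-- data of the search -/
structure Dat where
  /-- verifier of `A` -/
  V : List Bool → List Bool
  /-- length bound of the certificates -/
  p : Polynomial ℕ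
  /-- decider of `S` -/
  D : List Bool → List Bool
  /-- reduction to `A` -/
  f : List Bool → List Bool
  /-- padding of `A` -/
  P : List Bool → List Bool
  hV : PF V
  hD : PF D
  hf : PF f
  hP : PF P

variable (d : Dat)

/-- `r` codes an element of `A \ S` of length between `N` and `N ^ 2`, with a certificate -/
def RR (N : ℕ) (r : List Bool) : Bool :=
  (decide (N ≤ (spl r).1.length) && decide ((spl r).1.length ≤ N ^ 2)) &&
    ((decide ((spl r).2.length ≤ d.p.eval (spl r).1.length) &&
      (d.V (pairBits (spl r).1 (spl r).2) == [true])) && !(d.D (spl r).1 == [true]))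

/-- bound for the length of `r` -/
noncomputable def ell : Polynomial ℕ :=
  Polynomial.C 2 * Polynomial.X ^ 2 + Polynomial.C 1 + d.p.comp (Polynomial.X ^ 2)

theorem ell_eval (N : ℕ) : (ell d).eval N = 2 * N ^ 2 + 1 + d.p.eval (N ^ 2) := by
  unfold ell
  simp only [Polynomial.eval_add, Polynomial.eval_mul, Polynomial.eval_C, Polynomial.eval_pow,
    Polynomial.eval_X, Polynomial.eval_comp]

/-- some `r` with the property extends `q` -/
def Alive (N : ℕ) (q : List Bool) : Prop :=
  ∃ r : List Bool, r.length ≤ (ell d).eval N ∧ q <+: r ∧ RR d N r = true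

/-- the language of the prefixes -/
def LL : Set (List Bool) :=
  {x | ∃ N q, x = pairBits (List.replicate N true) q ∧ Alive d N q}

section
variable {α : Type} [TEnc α]

theorem pf_RR {N : α → ℕ} {r : α → List Bool} (hN : PF N) (hr : PF r) :
    PF (fun a => RR d (N a) (r a)) := by
  have h1 : PF (fun a => (spl (r a)).1) := PF.fst' (PF.spl hr)
  have h2 : PF (fun a => (spl (r a)).2) := PF.snd' (PF.spl hr)
  exact PF.and (PF.and (PF.le hN (PF.length h1)) (PF.le (PF.length h1) (pf_pow hN 2)))
    (PF.and (PF.and (PF.le (PF.length h2) (pf_eval (PF.length h1) d.p))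
      (PF.beqStr (d.hV.comp (pf_pairBits h1 h2)) (PF.const _)))
      (PF.not (PF.beqStr (d.hD.comp h1) (PF.const _))))

end

theorem LL_inNP : InNP (LL d) := by
  refine ⟨fun y => if (((spl y).1 == pairBits (List.replicate (spl (spl y).1).1.length true)
      (spl (spl y).1).2) && decide ((spl y).2.length ≤ (ell d).eval (spl (spl y).1).1.length)) &&
      (((spl y).2.take (spl (spl y).1).2.length == (spl (spl y).1).2) &&
        RR d (spl (spl y).1).1.length (spl y).2) then [true] else [], ell d,
    polyTime_of_pf ?_, fun x => ?_⟩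
  · have h1 : PF (fun y => (spl y).1) := PF.fst' (PF.spl PF.id)
    have h2 : PF (fun y => (spl y).2) := PF.snd' (PF.spl PF.id)
    have h3 : PF (fun y => (spl (spl y).1).1) := PF.fst' (PF.spl h1)
    have h4 : PF (fun y => (spl (spl y).1).2) := PF.snd' (PF.spl h1)
    exact PF.ite (PF.and (PF.and (PF.beqStr h1 (pf_pairBits (PF.replicate (PF.length h3)
      (PF.const true)) h4)) (PF.le (PF.length h2) (pf_eval (PF.length h3) _)))
      (PF.and (PF.beqStr (PF.take (PF.length h4) h2) h4) (pf_RR d (PF.length h3) h2)))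
      (PF.const _) (PF.const _)
  · constructor
    · rintro ⟨N, q, rfl, r, hr1, hr2, hr3⟩
      refine ⟨r, hr1.trans (eval_mono _ ?_), ?_⟩
      · rw [pairBits_length, List.length_replicate]
        omega
      · simp only [spl_pairBits, List.length_replicate, beq_self_eq_true, Bool.true_and]
        rw [if_pos]
        rw [List.prefix_iff_eq_take] at hr2
        rw [← hr2, hr3]
        simp [hr1]
    · rintro ⟨r, hr, h⟩
      simp only [spl_pairBits] at h
      split at h
      · rename_i hc
        simp only [Bool.and_eq_true, beq_iff_eq, decide_eq_true_eq] at hc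
        obtain ⟨⟨h1, h2⟩, h3, h4⟩ := hc
        refine ⟨(spl x).1.length, (spl x).2, h1, r, h2, ?_, h4⟩
        rw [List.prefix_iff_eq_take]
        exact h3.symm
      · simp at h

/-- the padded reduction -/
def FF (N : ℕ) (q : List Bool) : List Bool :=
  d.P (pairBits (d.f (pairBits (List.replicate N true) q)) (List.replicate N true))

/-- one step of the search -/
def stepQ (N : ℕ) (q : List Bool) : List Bool :=
  if RR d N q then q
  else if d.D (FF d N (q ++ [false])) == [true] then q ++ [false]
  else if d.D (FF d N (q ++ [true])) == [true] then q ++ [true]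
  else q

/-- the result of the search -/
noncomputable def QQ (N : ℕ) : List Bool := (stepQ d N)^[(ell d).eval N + 1] []

/-- the hard instance, depending on one bit of advice -/
noncomputable def hh (N : ℕ) (b : Bool) : List Bool :=
  if RR d N (QQ d N) then (spl (QQ d N)).1 else FF d N (QQ d N ++ [b])

section
variable {α : Type} [TEnc α]

theorem pf_FF {N : α → ℕ} {q : α → List Bool} (hN : PF N) (hq : PF q) :
    PF (fun a => FF d (N a) (q a)) := by
  have h1 := PF.replicate hN (PF.const true)
  exact d.hP.comp (pf_pairBits (d.hf.comp (pf_pairBits h1 hq)) h1)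

theorem pf_stepQ {N : α → ℕ} {q : α → List Bool} (hN : PF N) (hq : PF q) :
    PF (fun a => stepQ d (N a) (q a)) := by
  have h0 := PF.append hq (PF.const [false])
  have h1 := PF.append hq (PF.const [true])
  exact PF.ite (pf_RR d hN hq) hq
    (PF.ite (PF.beqStr (d.hD.comp (pf_FF d hN h0)) (PF.const _)) h0
      (PF.ite (PF.beqStr (d.hD.comp (pf_FF d hN h1)) (PF.const _)) h1 hq))

theorem sz_stepQ (N : ℕ) (q : List Bool) : sz (stepQ d N q) ≤ sz q + 4 := by
  have h : ∀ b : Bool, sz (q ++ [b]) ≤ sz q + 4 := by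
    intro b
    have h1 := sz_append q [b]
    have h2 := sz_bool b
    rw [sz_cons, sz_nil] at h1
    omega
  unfold stepQ
  split_ifs
  · omega
  · exact h _
  · exact h _
  · omega

theorem pf_QQ {N : α → ℕ} (hN : PF N) : PF (fun a => QQ d (N a)) := by
  refine PF.iterateAdd (n := fun a => (ell d).eval (N a) + 1) (s := fun _ => [])
    (f := fun a q => stepQ d (N a) q) (PF.add (pf_eval hN _) (PF.const 1)) (PF.const [])
    (pf_stepQ d (hN.comp PF.fst) PF.snd) (inc := fun _ => 4) (bnd := fun _ => 0)
    (PB.const 4) (PB.const 0) ?_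
  intro a q
  exact (sz_stepQ d (N a) q).trans (le_max_left _ _)

theorem pf_hh {N : α → ℕ} {b : α → Bool} (hN : PF N) (hb : PF b) :
    PF (fun a => hh d (N a) (b a)) :=
  PF.ite (pf_RR d hN (pf_QQ d hN)) (PF.fst' (PF.spl (pf_QQ d hN)))
    (pf_FF d hN (PF.append (pf_QQ d hN) (PF.cons hb (PF.const []))))

end

section correct
variable {A S : Set (List Bool)}

theorem FF_mem (hf : ∀ x, x ∈ LL d ↔ d.f x ∈ A)
    (hP : ∀ x u, d.P (pairBits x u) ∈ A ↔ x ∈ A) (N : ℕ) (q : List Bool) :
    FF d N q ∈ A ↔ Alive d N q := by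
  unfold FF
  rw [hP, ← hf]
  constructor
  · rintro ⟨N', q', h1, h2⟩
    obtain ⟨h3, h4⟩ := pairBits_inj h1
    have h5 := congrArg List.length h3
    rw [List.length_replicate, List.length_replicate] at h5
    subst h5 h4
    exact h2
  · intro h
    exact ⟨N, q, rfl, h⟩

theorem RR_mem (hA : ∀ x, x ∈ A ↔ ∃ w : List Bool, w.length ≤ d.p.eval x.length ∧
      d.V (pairBits x w) = [true]) (hS : ∀ x, x ∈ S ↔ d.D x = [true]) {N : ℕ} {r : List Bool}
    (h : RR d N r = true) : (spl r).1 ∈ A ∧ (spl r).1 ∉ S ∧ N ≤ (spl r).1.length := by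
  unfold RR at h
  simp only [Bool.and_eq_true, decide_eq_true_eq, beq_iff_eq, Bool.not_eq_true',
    beq_eq_false_iff_ne] at h
  obtain ⟨⟨h1, _⟩, ⟨h2, h3⟩, h4⟩ := h
  exact ⟨(hA _).2 ⟨_, h2, h3⟩, fun h => h4 ((hS _).1 h), h1⟩

theorem hard_exists (hA : ∀ x, x ∈ A ↔ ∃ w : List Bool, w.length ≤ d.p.eval x.length ∧
      d.V (pairBits x w) = [true]) (hS : ∀ x, x ∈ S ↔ d.D x = [true]) (hSA : S ⊆ A)
    (hf : ∀ x, x ∈ LL d ↔ d.f x ∈ A)
    (hP : ∀ x u, d.P (pairBits x u) ∈ A ↔ x ∈ A)
    (hPl : ∀ x u, u.length ≤ (d.P (pairBits x u)).length) (N : ℕ)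
    (hN : ∃ z ∈ A, z ∉ S ∧ N ≤ z.length ∧ z.length ≤ N ^ 2) :
    ∃ b, hh d N b ∈ A ∧ hh d N b ∉ S ∧ N ≤ (hh d N b).length := by
  have hFl : ∀ q, N ≤ (FF d N q).length := by
    intro q
    have := hPl (d.f (pairBits (List.replicate N true) q)) (List.replicate N true)
    rw [List.length_replicate] at this
    exact this
  -- the invariant
  have inv : ∀ k : ℕ, Alive d N ((stepQ d N)^[k] []) ∧
      (k ≤ ((stepQ d N)^[k] []).length ∨
        stepQ d N ((stepQ d N)^[k] []) = (stepQ d N)^[k] []) := by
    intro k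
    induction k with
    | zero =>
      refine ⟨?_, Or.inl (Nat.zero_le _)⟩
      obtain ⟨z, hz1, hz2, hz3, hz4⟩ := hN
      obtain ⟨w, hw1, hw2⟩ := (hA z).1 hz1
      refine ⟨pairBits z w, ?_, List.nil_prefix, ?_⟩
      · rw [pairBits_length, ell_eval]
        have := eval_mono d.p hz4
        omega
      · unfold RR
        rw [spl_pairBits]
        simp only [Bool.and_eq_true, decide_eq_true_eq, beq_iff_eq, Bool.not_eq_true',
          beq_eq_false_iff_ne]
        exact ⟨⟨hz3, hz4⟩, ⟨hw1, hw2⟩, fun h => hz2 ((hS _).2 h)⟩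
    | succ k ih =>
      rw [Function.iterate_succ_apply']
      generalize (stepQ d N)^[k] [] = q at ih
      obtain ⟨h1, h2⟩ := ih
      by_cases hst : stepQ d N q = q
      · rw [hst]
        exact ⟨h1, Or.inr hst⟩
      · have h3 : k ≤ q.length := h2.resolve_right hst
        have h4 : ∃ b, stepQ d N q = q ++ [b] ∧ FF d N (q ++ [b]) ∈ S := by
          unfold stepQ at hst ⊢
          split_ifs at hst ⊢ with g1 g2 g3
          · exact absurd rfl hst
          · exact ⟨false, rfl, (hS _).2 (by simpa using g2)⟩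
          · exact ⟨true, rfl, (hS _).2 (by simpa using g3)⟩
          · exact absurd rfl hst
        obtain ⟨b, h5, h6⟩ := h4
        rw [h5]
        refine ⟨(FF_mem d hf hP N _).1 (hSA h6), Or.inl ?_⟩
        rw [List.length_append, List.length_singleton]
        omega
  have h := inv ((ell d).eval N + 1)
  change Alive d N (QQ d N) ∧ ((ell d).eval N + 1 ≤ (QQ d N).length ∨
    stepQ d N (QQ d N) = QQ d N) at h
  unfold hh
  generalize QQ d N = q at h
  obtain ⟨⟨r, hr1, hr2, hr3⟩, h2⟩ := h
  have hst : stepQ d N q = q := by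
    refine h2.resolve_left (fun h3 => ?_)
    have := hr2.length_le
    omega
  by_cases hq : RR d N q = true
  · simp only [hq, if_true]
    exact ⟨true, RR_mem d hA hS hq⟩
  · simp only [hq, if_false]
    obtain ⟨r', rfl⟩ := hr2
    rcases r' with _ | ⟨b, r'⟩
    · rw [List.append_nil] at hr3
      exact absurd hr3 hq
    · refine ⟨b, (FF_mem d hf hP N _).2 ⟨_, hr1, ⟨r', by simp⟩, hr3⟩, ?_, hFl _⟩
      have hne : ∀ c : Bool, q ++ [c] ≠ q := by
        intro c hc
        have := congrArg List.length hc
        simp at this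
      unfold stepQ at hst
      rw [if_neg hq] at hst
      have g1 : ¬ (d.D (FF d N (q ++ [false])) == [true]) = true := by
        intro g
        rw [if_pos g] at hst
        exact hne _ hst
      rw [if_neg g1] at hst
      have g2 : ¬ (d.D (FF d N (q ++ [true])) == [true]) = true := by
        intro g
        rw [if_pos g] at hst
        exact hne _ hst
      rw [hS]
      cases b
      · simpa using g1
      · simpa using g2

end correct

end Pool.Agent.H545R2.KS
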