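import Pool.Agent.H545R2.KS.Form
import Pool.Agent.NPC.Sat
import Pool.Agent.NPC.Dec

/-!
The language `SAT` of satisfiable Boolean formulas in postfix notation is `NP`-complete and has a
padding function.
-/

namespace Pool.Agent.NPC.H545KS

open Pool.Agent.H545R2.KS

/-- state of the stack machine: validity flag and stack of values -/
abbrev StM : Type := Bool × List Bool

/-- application of a connective -/
def stO (s : StM) (o : Option Bool) : StM :=
  match o with
  | none => (s.1 && !s.2.isEmpty, (!(s.2.head?.getD false)) :: s.2.tail)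
  | some c => (s.1 && (!s.2.isEmpty && !s.2.tail.isEmpty),
      (bif c then (s.2.tail.head?.getD false && s.2.head?.getD false)
        else (s.2.tail.head?.getD false || s.2.head?.getD false)) :: s.2.tail.tail)

/-- one step of the stack machine -/
def stp (τ : ℕ → Bool) (s : StM) (t : Tok) : StM :=
  match t with
  | Sum.inl n => (s.1, τ n :: s.2)
  | Sum.inr o => stO s o

theorem foldl_post (τ : ℕ → Bool) (φ : Fm) : ∀ (b : Bool) (s : List Bool),
    φ.post.foldl (stp τ) (b, s) = (b, φ.eval τ :: s) := by
  induction φ with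
  | var n => intro b s; rfl
  | neg a ih =>
    intro b s
    rw [Fm.post, List.foldl_append, ih]
    simp [stp, stO, Fm.eval]
  | and a b iha ihb =>
    intro c s
    rw [Fm.post, List.foldl_append, List.foldl_append, iha, ihb]
    simp [stp, stO, Fm.eval]
  | or a b iha ihb =>
    intro c s
    rw [Fm.post, List.foldl_append, List.foldl_append, iha, ihb]
    simp [stp, stO, Fm.eval]

theorem parse_back (τ : ℕ → Bool) (l : List Tok) : ∀ s : List Bool,
    l.foldl (stp τ) (true, []) = (true, s) →
    ∃ Φ : List Fm, Φ.map (Fm.eval τ) = s ∧ (Φ.reverse.map Fm.post).flatten = l := by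
  induction l using List.reverseRecOn with
  | nil =>
    intro s h
    refine ⟨[], ?_, rfl⟩
    simpa using h
  | append_singleton l t ih =>
    intro s h
    rw [List.foldl_append] at h
    rcases hst : l.foldl (stp τ) (true, []) with ⟨b, s'⟩
    rw [hst] at h ih
    simp only [List.foldl_cons, List.foldl_nil] at h
    rcases t with n | (_ | c)
    · simp only [stp, Prod.mk.injEq] at h
      obtain ⟨rfl, rfl⟩ := h
      obtain ⟨Φ, h1, h2⟩ := ih s' rfl
      refine ⟨Fm.var n :: Φ, by simp [h1, Fm.eval], ?_⟩
      rw [List.reverse_cons, List.map_append, List.flatten_append, h2]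
      simp [Fm.post]
    · simp only [stp, stO, Prod.mk.injEq, Bool.and_eq_true, Bool.not_eq_true'] at h
      obtain ⟨⟨rfl, h3⟩, rfl⟩ := h
      obtain ⟨Φ, h1, h2⟩ := ih s' rfl
      rcases Φ with _ | ⟨φ, Φ⟩
      · subst h1
        simp at h3
      · subst h1
        refine ⟨Fm.neg φ :: Φ, by simp [Fm.eval], ?_⟩
        rw [← h2]
        simp [Fm.post]
    · simp only [stp, stO, Prod.mk.injEq, Bool.and_eq_true, Bool.not_eq_true'] at h
      obtain ⟨⟨rfl, h3, h4⟩, rfl⟩ := h
      obtain ⟨Φ, h1, h2⟩ := ih s' rfl
      rcases Φ with _ | ⟨φ, _ | ⟨ψ, Φ⟩⟩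
      · subst h1
        simp at h3
      · subst h1
        simp at h4
      · subst h1
        cases c
        · refine ⟨Fm.or ψ φ :: Φ, by simp [Fm.eval], ?_⟩
          rw [← h2]
          simp [Fm.post]
        · refine ⟨Fm.and ψ φ :: Φ, by simp [Fm.eval], ?_⟩
          rw [← h2]
          simp [Fm.post]

/-- acceptance by the stack machine -/
theorem run_iff (τ : ℕ → Bool) (l : List Tok) : l.foldl (stp τ) (true, []) = (true, [true]) ↔
    ∃ φ : Fm, φ.post = l ∧ φ.eval τ = true := by
  constructor
  · intro h
    obtain ⟨Φ, h1, h2⟩ := parse_back τ l _ h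
    rcases Φ with _ | ⟨φ, _ | ⟨ψ, Φ⟩⟩
    · simp at h1
    · exact ⟨φ, by simpa using h2, by simpa using h1⟩
    · simp at h1
  · rintro ⟨φ, rfl, h⟩
    rw [foldl_post, h]

/-- the decision problem on lists of symbols -/
def SatL (l : List Tok) : Prop := ∃ τ : ℕ → Bool, l.foldl (stp τ) (true, []) = (true, [true])

theorem SAT_eq : Pool.Agent.H545R2.KS.SAT = lang SatL := by
  ext x
  constructor
  · rintro ⟨φ, hx, τ, h⟩
    exact ⟨φ.post, hx, τ, (run_iff τ _).2 ⟨φ, rfl, h⟩⟩
  · rintro ⟨l, hx, τ, h⟩
    obtain ⟨φ, rfl, h'⟩ := (run_iff τ _).1 h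
    exact ⟨φ, hx, τ, h'⟩

theorem foldl_congr_tok {τ τ' : ℕ → Bool} : ∀ (l : List Tok) (s : StM),
    (∀ n, Sum.inl n ∈ l → τ n = τ' n) → l.foldl (stp τ) s = l.foldl (stp τ') s := by
  intro l
  induction l with
  | nil => intro s _; rfl
  | cons t l ih =>
    intro s h
    rw [List.foldl_cons, List.foldl_cons]
    have h1 : stp τ s t = stp τ' s t := by
      rcases t with n | o
      · simp only [stp]
        rw [h n (by simp)]
      · rfl
    rw [h1]
    exact ih _ (fun n hn => h n (List.mem_cons_of_mem _ hn))

/-- the variables set to true -/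
def trues (τ : ℕ → Bool) (l : List Tok) : List ℕ :=
  l.flatMap (fun t => match t with | Sum.inl n => (if τ n then [n] else []) | Sum.inr _ => [])

theorem mem_trues {τ : ℕ → Bool} {l : List Tok} {n : ℕ} (h : Sum.inl n ∈ l) :
    n ∈ trues τ l ↔ τ n = true := by
  unfold trues
  rw [List.mem_flatMap]
  constructor
  · rintro ⟨t, ht, h2⟩
    rcases t with m | o
    · by_cases h3 : τ m = true
      · simp only [h3, if_true, List.mem_singleton] at h2
        rw [h2]
        exact h3
      · simp [h3] at h2
    · simp at h2
  · intro h2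
    exact ⟨_, h, by simp [h2]⟩

theorem sz_trues (τ : ℕ → Bool) (l : List Tok) : sz (trues τ l) ≤ sz l := by
  induction l with
  | nil => simp [trues]
  | cons t l ih =>
    have h1 : trues τ (t :: l) = (match t with
      | Sum.inl n => (if τ n then [n] else []) | Sum.inr _ => []) ++ trues τ l := by
      simp [trues]
    rw [h1]
    rcases t with m | o
    · by_cases h3 : τ m = true
      · simp only [h3, if_true, List.singleton_append]
        simp only [sz_list_cons]
        have h4 : sz m ≤ sz (Sum.inl m : Tok) := by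
          simp only [sz_inl]
          omega
        omega
      · simp only [h3]
        simp only [sz_list_cons]
        simp
        omega
    · simp only [List.nil_append, sz_list_cons]
      omega

theorem poly_stO : Poly (fun p : StM × Option Bool => stO p.1 p.2) := by
  have hs : Poly (fun p : StM × Option Bool => p.1) := Poly.fst Poly.id
  have h2 := hs.comp (Poly.fst (Poly.id (α := (StM × Option Bool) × Bool)))
  have h3 := Poly.snd h2
  have h4 := Poly.tail h3
  refine (Poly.optCases (o := fun p : StM × Option Bool => p.2)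
    (g := fun p => ((p.1.1 && !p.1.2.isEmpty, (!(p.1.2.head?.getD false)) :: p.1.2.tail) : StM))
    (h := fun p c => ((p.1.1 && (!p.1.2.isEmpty && !p.1.2.tail.isEmpty),
      (bif c then (p.1.2.tail.head?.getD false && p.1.2.head?.getD false)
        else (p.1.2.tail.head?.getD false || p.1.2.head?.getD false)) :: p.1.2.tail.tail) : StM))
    (Poly.snd Poly.id) ?_ ?_).congr ?_
  · exact Poly.pair (Poly.and (Poly.fst hs) (Poly.not (Poly.isEmpty (Poly.snd hs))))
      (Poly.cons (Poly.not (Poly.head?_getD (Poly.snd hs) false)) (Poly.tail (Poly.snd hs)))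
  · exact Poly.pair (Poly.and (Poly.fst h2) (Poly.and (Poly.not (Poly.isEmpty h3))
      (Poly.not (Poly.isEmpty h4)))) (Poly.cons (Poly.cond (Poly.snd Poly.id)
        (Poly.and (Poly.head?_getD h4 false) (Poly.head?_getD h3 false))
        (Poly.or (Poly.head?_getD h4 false) (Poly.head?_getD h3 false))) (Poly.tail h4))
  · rintro ⟨s, (_ | c)⟩ <;> rfl

theorem poly_stp : Poly (fun p : (List Tok × List ℕ) × StM × Tok =>
    stp (fun n => decide (n ∈ p.1.2)) p.2.1 p.2.2) := by
  have hs : Poly (fun p : ((List Tok × List ℕ) × StM × Tok) => p.2.1) :=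
    Poly.fst (Poly.snd Poly.id)
  refine (Poly.sumCases (o := fun p : (List Tok × List ℕ) × StM × Tok => p.2.2)
    (g := fun p n => ((p.2.1.1, decide (n ∈ p.1.2) :: p.2.1.2) : StM))
    (h := fun p o => stO p.2.1 o) (Poly.snd (Poly.snd Poly.id)) ?_ ?_).congr ?_
  · have hs' := hs.comp (Poly.fst (Poly.id (α := ((List Tok × List ℕ) × StM × Tok) × ℕ)))
    exact Poly.pair (Poly.fst hs') (Poly.cons (Poly.decide_mem (Poly.snd Poly.id)
      (Poly.snd (Poly.fst (Poly.fst Poly.id)))) (Poly.snd hs'))
  · have hs' := hs.comp (Poly.fst (Poly.id (α := ((List Tok × List ℕ) × StM × Tok) × Option Bool)))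
    exact poly_stO.comp (Poly.pair hs' (Poly.snd Poly.id))
  · rintro ⟨⟨l, w⟩, s, (n | o)⟩ <;> rfl

theorem stp_length (τ : ℕ → Bool) (s : StM) (t : Tok) :
    (stp τ s t).2.length ≤ s.2.length + 1 := by
  rcases t with n | (_ | c)
  · simp [stp]
  · simp [stp, stO]
  · simp [stp, stO]
    omega

theorem foldl_length (τ : ℕ → Bool) (l : List Tok) : ∀ s : StM,
    (l.foldl (stp τ) s).2.length ≤ s.2.length + l.length := by
  induction l with
  | nil => intro s; simp
  | cons t l ih =>
    intro s
    rw [List.foldl_cons, List.length_cons]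
    have h1 := ih (stp τ s t)
    have h2 := stp_length τ s t
    omega

theorem sat_inNPP : InNPP SatL := by
  have hR : Poly (fun p : List Tok × List ℕ =>
      decide (p.1.foldl (stp (fun n => decide (n ∈ p.2))) (true, []) = (true, [true]))) := by
    refine Poly.decide_eq (Poly.foldl (l := fun p : List Tok × List ℕ => p.1)
      (s := fun _ => ((true, []) : StM)) (F := fun p s t => stp (fun n => decide (n ∈ p.2)) s t)
      (Poly.fst Poly.id) (Poly.const _) poly_stp
      (Polynomial.C 4 * Polynomial.X + Polynomial.C 5) ?_) (Poly.const _)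
    intro p k hk
    have h1 := foldl_length (fun n => decide (n ∈ p.2)) (p.1.take k) (true, [])
    have h2 := sz_listBool_le ((p.1.take k).foldl (stp (fun n => decide (n ∈ p.2))) (true, [])).2
    have h3 := sz_bool_le ((p.1.take k).foldl (stp (fun n => decide (n ∈ p.2))) (true, [])).1
    have h4 := length_lt_sz p.1
    have h5 : sz p = 1 + sz p.1 + sz p.2 := by
      rcases p with ⟨p1, p2⟩
      simp [sz_pair]
      try omega
    have h6 : ∀ q : StM, sz q = 1 + sz q.1 + sz q.2 := by
      rintro ⟨q1, q2⟩
      simp [sz_pair]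
      try omega
    change sz ((p.1.take k).foldl (stp (fun n => decide (n ∈ p.2))) (true, [])) ≤ _
    rw [h6]
    simp only [List.length_take, List.length_nil, Polynomial.eval_add, Polynomial.eval_mul,
      Polynomial.eval_C, Polynomial.eval_X] at *
    omega
  refine inNPP_of hR Polynomial.X (fun l => ?_)
  rw [Polynomial.eval_X]
  constructor
  · rintro ⟨τ, h⟩
    refine ⟨trues τ l, sz_trues τ l, ?_⟩
    rw [decide_eq_true_eq, ← h]
    refine foldl_congr_tok l _ (fun n hn => ?_)
    rcases hτ : τ n with _ | _
    · rw [decide_eq_false_iff_not, mem_trues hn, hτ]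
      simp
    · rw [decide_eq_true_eq, mem_trues hn, hτ]
  · rintro ⟨w, _, hw⟩
    exact ⟨_, by simpa using hw⟩

/-! ### Hardness -/

/-- symbols of a literal -/
def litT (l : Bool × ℕ) : List Tok := bif l.1 then [Sum.inl l.2] else [Sum.inl l.2, Sum.inr none]

/-- a contradiction -/
def fT : List Tok := [Sum.inl 0, Sum.inl 0, Sum.inr none, Sum.inr (some true)]

/-- a tautology -/
def tT : List Tok := [Sum.inl 0, Sum.inl 0, Sum.inr none, Sum.inr (some false)]

/-- symbols of a clause -/
def clT (c : List (Bool × ℕ)) : List Tok :=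
  fT ++ c.flatMap (fun l => litT l ++ [Sum.inr (some false)])

/-- symbols of a formula in conjunctive normal form -/
def cnT (φ : List (List (Bool × ℕ))) : List Tok :=
  tT ++ φ.flatMap (fun c => clT c ++ [Sum.inr (some true)])

theorem poly_cnT : Poly cnT := by
  have h1 : Poly litT := Poly.cond (Poly.fst Poly.id)
    (Poly.cons (Poly.inl (Poly.snd Poly.id)) (Poly.const []))
    (Poly.cons (Poly.inl (Poly.snd Poly.id)) (Poly.const [Sum.inr none]))
  have h2 : Poly clT := Poly.append (Poly.const _) (Poly.flatMap
    (F := fun _ l => litT l ++ [Sum.inr (some false)]) Poly.id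
    (Poly.append (h1.comp (Poly.snd Poly.id)) (Poly.const _)))
  exact Poly.append (Poly.const _) (Poly.flatMap
    (F := fun _ c => clT c ++ [Sum.inr (some true)]) Poly.id
    (Poly.append (h2.comp (Poly.snd Poly.id)) (Poly.const _)))

theorem foldl_litT (τ : ℕ → Bool) (l : Bool × ℕ) (b : Bool) (s : List Bool) :
    (litT l).foldl (stp τ) (b, s) = (b, (τ l.2 == l.1) :: s) := by
  obtain ⟨c, n⟩ := l
  cases c <;> simp [litT, stp, stO]

theorem foldl_clT_aux (τ : ℕ → Bool) (c : List (Bool × ℕ)) : ∀ (b v : Bool) (s : List Bool),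
    (c.flatMap (fun l => litT l ++ [Sum.inr (some false)])).foldl (stp τ) (b, v :: s) =
      (b, (v || c.any (fun l => τ l.2 == l.1)) :: s) := by
  induction c with
  | nil => intro b v s; simp
  | cons l c ih =>
    intro b v s
    rw [List.flatMap_cons, List.foldl_append, List.foldl_append, foldl_litT]
    have h1 : [Sum.inr (some false)].foldl (stp τ) (b, (τ l.2 == l.1) :: v :: s) =
        (b, (v || (τ l.2 == l.1)) :: s) := by
      simp [stp, stO]
    rw [h1, ih, List.any_cons, Bool.or_assoc]

theorem foldl_clT (τ : ℕ → Bool) (c : List (Bool × ℕ)) (b : Bool) (s : List Bool) :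
    (clT c).foldl (stp τ) (b, s) = (b, (c.any (fun l => τ l.2 == l.1)) :: s) := by
  have h1 : fT.foldl (stp τ) (b, s) = (b, false :: s) := by
    simp [fT, stp, stO]
  rw [clT, List.foldl_append, h1, foldl_clT_aux]
  simp

theorem foldl_cnT_aux (τ : ℕ → Bool) (φ : List (List (Bool × ℕ))) : ∀ (b v : Bool) (s : List Bool),
    (φ.flatMap (fun c => clT c ++ [Sum.inr (some true)])).foldl (stp τ) (b, v :: s) =
      (b, (v && φ.all (fun c => c.any (fun l => τ l.2 == l.1))) :: s) := by
  induction φ with
  | nil => intro b v s; simp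
  | cons c φ ih =>
    intro b v s
    rw [List.flatMap_cons, List.foldl_append, List.foldl_append, foldl_clT]
    have h1 : [Sum.inr (some true)].foldl (stp τ)
        (b, (c.any (fun l => τ l.2 == l.1)) :: v :: s) =
        (b, (v && c.any (fun l => τ l.2 == l.1)) :: s) := by
      simp [stp, stO]
    rw [h1, ih, List.all_cons, Bool.and_assoc]

theorem foldl_cnT (τ : ℕ → Bool) (φ : List (List (Bool × ℕ))) :
    (cnT φ).foldl (stp τ) (true, []) =
      (true, [φ.all (fun c => c.any (fun l => τ l.2 == l.1))]) := by
  have h1 : tT.foldl (stp τ) (true, []) = (true, [true]) := by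
    simp [tT, stp, stO]
  rw [cnT, List.foldl_append, h1, foldl_cnT_aux]
  simp

theorem sat_hard : HardI SatL := by
  refine hardI_SAT.trans poly_cnT (fun φ => ?_)
  constructor
  · rintro ⟨τ, h⟩
    refine ⟨τ, ?_⟩
    rw [foldl_cnT]
    simp only [Prod.mk.injEq, List.cons.injEq, and_true, true_and, List.all_eq_true,
      List.any_eq_true, beq_iff_eq]
    exact h
  · rintro ⟨τ, h⟩
    rw [foldl_cnT] at h
    simp only [Prod.mk.injEq, List.cons.injEq, and_true, true_and, List.all_eq_true,
      List.any_eq_true, beq_iff_eq] at h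
    exact ⟨τ, h⟩

theorem sat_complete : NPComplete Pool.Agent.H545R2.KS.SAT := by
  rw [SAT_eq]
  exact ⟨sat_inNPP, sat_hard.toNPHardP⟩

/-! ### Padding -/

theorem flag_mono (τ : ℕ → Bool) (l : List Tok) : ∀ s : List Bool,
    (l.foldl (stp τ) (false, s)).1 = false := by
  induction l with
  | nil => intro s; rfl
  | cons t l ih =>
    intro s
    rw [List.foldl_cons]
    have h1 : stp τ (false, s) t = (false, (stp τ (false, s) t).2) := by
      rcases t with n | (_ | c)
      · rfl
      · simp [stp, stO]
      · simp [stp, stO]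
    rw [h1]
    exact ih _

theorem block_iff (τ : ℕ → Bool) (st : StM) :
    (tT ++ [Sum.inr (some true)]).foldl (stp τ) st = (true, [true]) ↔ st = (true, [true]) := by
  rcases st with ⟨b, s⟩
  rw [List.foldl_append]
  have h1 : tT.foldl (stp τ) (b, s) = (b, true :: s) := by
    simp [tT, stp, stO]
  rw [h1]
  rcases s with _ | ⟨v, s⟩
  · simp [stp, stO]
  · simp [stp, stO]

theorem blocks_iff (τ : ℕ → Bool) (u : List Bool) : ∀ st : StM,
    (u.flatMap (fun _ => tT ++ [Sum.inr (some true)])).foldl (stp τ) st = (true, [true]) ↔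
      st = (true, [true]) := by
  induction u with
  | nil => intro st; simp
  | cons b u ih =>
    intro st
    rw [List.flatMap_cons, List.foldl_append, ih, block_iff]

/-- the padding function -/
def padT (z : List Bool) : List Tok :=
  match unbits (List Tok) (unpair z).1 with
  | none => (unpair z).2.map (fun _ => Sum.inr none)
  | some l => l ++ (unpair z).2.flatMap (fun _ => tT ++ [Sum.inr (some true)])

theorem poly_padT : Poly padT := by
  have h1 : Poly (fun z : List Bool => (unpair z).1) := Poly.fst poly_unpair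
  have h2 : Poly (fun z : List Bool => (unpair z).2) := Poly.snd poly_unpair
  refine (Poly.optCases (o := fun z : List Bool => unbits (List Tok) (unpair z).1)
    (g := fun z => (unpair z).2.map (fun _ => (Sum.inr none : Tok)))
    (h := fun z l => l ++ (unpair z).2.flatMap (fun _ => tT ++ [Sum.inr (some true)]))
    (poly_unbits.comp h1) (Poly.map (F := fun _ _ => (Sum.inr none : Tok)) h2 (Poly.const _))
    (Poly.append (Poly.snd Poly.id) (Poly.flatMap
      (F := fun _ _ => tT ++ [Sum.inr (some true)]) (h2.comp (Poly.fst Poly.id))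
      (Poly.const _)))).congr ?_
  intro z
  unfold padT
  rcases unbits (List Tok) (unpair z).1 with _ | l <;> rfl

theorem sat_paddable : Paddable Pool.Agent.H545R2.KS.SAT := by
  rw [SAT_eq]
  refine ⟨fun z => bits (padT z), polyTime_bits poly_padT, fun x u => ?_⟩
  beta_reduce
  rw [bits_mem_lang, bits_length]
  unfold padT
  rw [unpair_pairBits]
  simp only
  rcases hx : unbits (List Tok) x with _ | l
  · simp only
    constructor
    · constructor
      · rintro ⟨τ, h⟩
        exfalso
        rcases u with _ | ⟨b, u⟩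
        · simp at h
        · rw [List.map_cons, List.foldl_cons] at h
          have h1 : stp τ (true, []) (Sum.inr none) = (false, [true]) := by
            simp [stp, stO]
          rw [h1] at h
          have h2 := flag_mono τ (u.map (fun _ => (Sum.inr none : Tok))) [true]
          rw [h] at h2
          simp at h2
      · intro h
        rw [mem_lang_iff] at h
        obtain ⟨a, ha, _⟩ := h
        rw [hx] at ha
        simp at ha
    · refine le_trans ?_ (length_lt_sz _).le
      simp
  · simp only
    have hxl := bits_of_unbits hx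
    subst hxl
    rw [bits_mem_lang]
    constructor
    · unfold SatL
      simp only [List.foldl_append, blocks_iff]
    · refine le_trans ?_ (length_lt_sz _).le
      rw [List.length_append, List.length_flatMap]
      simp [tT]
      omega

end Pool.Agent.NPC.H545KS
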