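import Pool.Agent.H545R2.KS.Base
import Pool.Agent.H545R2.KS.Defs

/-!
A universal Turing machine: a program with an unbounded loop around the one-step simulation
`H583R2.stepU`.
-/

namespace Pool.Agent.H545R2.KS

open Turing
open Pool.Agent.H583R2
open Pool.Agent.NPC (PolyTime pairBits)

section loop
variable {σ : Type} [TEnc σ]

/-- remove the flag `true` -/
def pop3 : Prog := .seq (.pop .m .skip .skip .skip)
  (.seq (.pop .m .skip .skip .skip) (.pop .m .skip .skip .skip))

/-- repeat the program `p` as long as its flag is `true` -/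
def loopP (p : Prog) : Prog := .whil .m (fun o => o == some true) (.seq pop3 (.seq p unpairP))

theorem pop3_spec (rest A B : List Bool) :
    EvL pop3 ⟨ser (enc true) ++ rest, A, B, [], []⟩ ⟨rest, A, B, [], []⟩ 6 := by
  have h1 : EvL (.pop .m .skip .skip .skip) ⟨true :: false :: false :: rest, A, B, [], []⟩
    ⟨false :: false :: rest, A, B, [], []⟩ 2 := EvL.pop (EvL.skip _)
  have h2 : EvL (.pop .m .skip .skip .skip) ⟨false :: false :: rest, A, B, [], []⟩
    ⟨false :: rest, A, B, [], []⟩ 2 := EvL.pop (EvL.skip _)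
  have h3 : EvL (.pop .m .skip .skip .skip) ⟨false :: rest, A, B, [], []⟩
    ⟨rest, A, B, [], []⟩ 2 := EvL.pop (EvL.skip _)
  exact h1.seq (h2.seq h3)

theorem loop_spec {p : Prog} {F : σ → Bool × σ} {c : σ → ℕ} (hp : Cmp p F c) (C : ℕ) (n : ℕ) :
    ∀ (q : Bool × σ) (rest A B : List Bool),
      (∀ i < n, ((fun q : Bool × σ => F q.2)^[i] q).1 = true ∧
        c ((fun q : Bool × σ => F q.2)^[i] q).2 ≤ C) →
      ((fun q : Bool × σ => F q.2)^[n] q).1 = false →
      EvL (loopP p) ⟨ser (enc q.1) ++ (ser (enc q.2) ++ rest), A, B, [], []⟩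
        ⟨ser (enc false) ++ (ser (enc ((fun q : Bool × σ => F q.2)^[n] q).2) ++ rest), A, B, [], []⟩
        (n * (C + 9) + 1) := by
  induction n with
  | zero =>
    intro q rest A B _ h
    simp only [Function.iterate_zero, id] at h ⊢
    rw [h]
    refine (EvL.whilDone ?_).mono (by omega)
    rfl
  | succ n ih =>
    intro q rest A B h1 h2
    have h3 := ih (F q.2) rest A B (fun i hi => by
      have := h1 (i + 1) (by omega)
      rw [Function.iterate_succ_apply] at this
      exact this) (by rw [Function.iterate_succ_apply] at h2; exact h2)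
    rw [Function.iterate_succ_apply]
    have h4 := h1 0 (Nat.succ_pos n)
    simp only [Function.iterate_zero, id] at h4
    obtain ⟨h5, h6⟩ := h4
    rw [h5]
    have g1 := pop3_spec (ser (enc q.2) ++ rest) A B
    have g2 := hp q.2 rest A B
    have g3 := unpairP_spec (enc (F q.2).1) (enc (F q.2).2) rest A B
    refine (EvL.whilStep ?_ (g1.seq (g2.seq g3)) h3).mono ?_
    · rfl
    · have : (n + 1) * (C + 9) = n * (C + 9) + (C + 9) := by ring
      omega

end loop

/-- start configuration with flag -/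
def u0 (z : List Bool) : Bool × (Code × UCfg) :=
  (decide ((initU (decCode (parse (spl z).1)) (spl z).2).1 < (decCode (parse (spl z).1)).1.length),
    (decCode (parse (spl z).1), initU (decCode (parse (spl z).1)) (spl z).2))

/-- one step with flag -/
def uF (s : Code × UCfg) : Bool × (Code × UCfg) :=
  (decide ((stepU s.1.1 s.2).1 < s.1.1.length), (s.1, stepU s.1.1 s.2))

/-- output -/
def uG (s : Code × UCfg) : List Bool :=
  (s.2.2.getD s.1.2.2.2.2.2.1 []).map (fun a => s.1.2.2.2.2.2.2.getD a false)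

theorem pf_u0 : PF u0 := by
  have h1 : PF (fun z : List Bool => decCode (parse (spl z).1)) :=
    PF.decCode (PF.parse (PF.fst' (PF.spl PF.id)))
  have h2 : PF (fun z : List Bool => initU (decCode (parse (spl z).1)) (spl z).2) :=
    PF.initU.comp (PF.pair h1 (PF.snd' (PF.spl PF.id)))
  exact PF.pair (PF.lt (PF.fst' h2) (PF.length (PF.fst' h1))) (PF.pair h1 h2)

theorem pf_uF : PF uF := by
  have h1 : PF (fun s : Code × UCfg => stepU s.1.1 s.2) :=
    PF.stepU.comp (PF.pair (PF.fst' PF.fst) PF.snd)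
  exact PF.pair (PF.lt (PF.fst' h1) (PF.length (PF.fst' PF.fst))) (PF.pair PF.fst h1)

theorem pf_uG : PF uG := by
  have hc : PF (fun p : Code × UCfg => p.1) := PF.fst
  refine PF.map (l := fun p : Code × UCfg => p.2.2.getD p.1.2.2.2.2.2.1 [])
    (f := fun p a => p.1.2.2.2.2.2.2.getD a false)
    (PF.listGetD (PF.fst' (PF.snd' (PF.snd' (PF.snd' (PF.snd' (PF.snd' hc)))))) (PF.snd' PF.snd)
      (PF.const [])) ?_
  have hc' : PF (fun p : (Code × UCfg) × ℕ => p.1.1) := PF.fst' PF.fst
  exact PF.listGetD PF.snd (PF.snd' (PF.snd' (PF.snd' (PF.snd' (PF.snd' (PF.snd' hc'))))))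
    (PF.const false)

theorem iter_u (cd : Code) (y : List Bool) (i : ℕ) :
    (fun q : Bool × (Code × UCfg) => uF q.2)^[i]
      (decide ((initU cd y).1 < cd.1.length), (cd, initU cd y)) =
      (decide ((runU cd y i).1 < cd.1.length), (cd, runU cd y i)) := by
  induction i with
  | zero => rfl
  | succ i ih =>
    rw [Function.iterate_succ_apply', ih]
    unfold uF runU
    rw [Function.iterate_succ_apply']

theorem u0_pair (cd : Code) (y : List Bool) : u0 (pairBits (ser (enc cd)) y) =
    (decide ((initU cd y).1 < cd.1.length), (cd, initU cd y)) := by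
  have h : decCode (parse (ser (enc cd))) = cd := by
    have := parse_ser (enc cd) []
    rw [List.append_nil] at this
    rw [this, decCode_enc]
  unfold u0
  rw [spl_pairBits, h]

theorem runU_stable (cd : Code) (y : List Bool) {n t : ℕ} (h : ¬ (runU cd y n).1 < cd.1.length)
    (hnt : n ≤ t) : runU cd y t = runU cd y n := by
  induction t, hnt using Nat.le_induction with
  | base => rfl
  | succ t _ ih =>
    have h1 : runU cd y (t + 1) = stepU cd.1 (runU cd y t) := by
      unfold runU
      rw [Function.iterate_succ_apply']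
    rw [h1, ih]
    unfold stepU
    rw [List.getElem?_eq_none (by omega)]

theorem sz_runU (cd : Code) (y : List Bool) (i : ℕ) :
    sz (runU cd y i) ≤ sz (initU cd y) + i * (3 * sz cd.1 + 30) := by
  induction i with
  | zero => simp [runU]
  | succ i ih =>
    have h1 : runU cd y (i + 1) = stepU cd.1 (runU cd y i) := by
      unfold runU
      rw [Function.iterate_succ_apply']
    rw [h1]
    have h2 := sz_stepU_le cd.1 (runU cd y i)
    have h3 : (i + 1) * (3 * sz cd.1 + 30) = i * (3 * sz cd.1 + 30) + (3 * sz cd.1 + 30) := by ring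
    omega

/-- the halting time of the simulation -/
theorem exists_halt {cd : Code} {y x : List Bool} {T : ℕ} (h : U cd y T = some x) :
    ∃ n ≤ T, (∀ i < n, (runU cd y i).1 < cd.1.length) ∧ ¬ (runU cd y n).1 < cd.1.length ∧
      uG (cd, runU cd y n) = x := by
  have h1 : ¬ (runU cd y T).1 < cd.1.length := by
    intro h2
    unfold U at h
    rw [if_pos (by simpa using h2)] at h
    cases h
  classical
  have hex : ∃ n, ¬ (runU cd y n).1 < cd.1.length := ⟨T, h1⟩
  refine ⟨Nat.find hex, Nat.find_min' hex h1, fun i hi => ?_, Nat.find_spec hex, ?_⟩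
  · by_contra hcon
    exact Nat.find_min hex hi hcon
  · rw [← runU_stable cd y (Nat.find_spec hex) (Nat.find_min' hex h1)]
    unfold U at h
    rw [if_neg (by simpa using h1)] at h
    exact Option.some.inj h

/-- polynomially bounded functions of a natural number -/
theorem pb_norm {B : ℕ → ℕ} (h : PB B) : ∃ c, ∀ n, B n ≤ (n + 2) ^ c := by
  obtain ⟨k, hk⟩ := h
  refine ⟨2 * k, fun n => (hk n).trans ?_⟩
  rw [pow_mul]
  refine Nat.pow_le_pow_left ?_ k
  rw [sz_nat]
  nlinarith

theorem pb_id : PB (fun n : ℕ => n) := ⟨1, fun n => by rw [sz_nat, pow_one]; dsimp only; omega⟩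

/-- **Existence of a universal Turing machine** with polynomial overhead. -/
theorem exists_universal : ∃ U : Machine, ∀ M : Machine, ∃ (p : List Bool) (c : ℕ),
    ∀ (y x : List Bool) (t : ℕ), Outputs M y x t →
      Outputs U (p ++ y) x ((t + y.length + 2) ^ c) := by
  obtain ⟨c0, ⟨k0, hc0⟩, p0, hp0⟩ := pf_u0
  obtain ⟨cF, ⟨kF, hcF⟩, pF, hpF⟩ := pf_uF
  obtain ⟨cG, ⟨kG, hcG⟩, pG, hpG⟩ := pf_uG
  obtain ⟨kI, hkI⟩ := PF.size PF.initU
  let prog : Prog := .seq inP (.seq p0 (.seq unpairP (.seq (loopP pF)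
    (.seq (.pop .m .skip .skip .skip) (.seq pG outP)))))
  refine ⟨⟨finTM prog, Equiv.refl _, Equiv.refl _⟩, fun M => ?_⟩
  set cd : Code := codeOf M.inputAlphabet M.outputAlphabet with hcd
  set L : ℕ := 2 * (ser (enc cd)).length + 1 with hL
  set Dm : ℕ := maxDep M.tm with hDm
  -- the bound
  have hS : PB (fun m : ℕ => 1 + sz cd + (sz cd + 4 * m + 4) ^ kI +
      Dm * m * (3 * sz cd.1 + 30) + 2) :=
    (((PB.const _).add ((((PB.const _).add ((PB.const 4).mul pb_id)).add (PB.const 4)).pow
      kI)).add (((PB.const Dm).mul pb_id).mul (PB.const _))).add (PB.const 2)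
  have hB : PB (fun m : ℕ => (9 * (L + m) + 3) + (4 * (L + m) + 3) ^ k0 + 2 +
      (Dm * m * ((1 + sz cd + (sz cd + 4 * m + 4) ^ kI +
      Dm * m * (3 * sz cd.1 + 30) + 2) ^ kF + 9) + 1) + 2 +
      (1 + sz cd + (sz cd + 4 * m + 4) ^ kI +
      Dm * m * (3 * sz cd.1 + 30) + 2) ^ kG + (12 * (m + Dm * m) + 4) + 1) := by
    refine PB.add (PB.add (PB.add (PB.add (PB.add (PB.add (PB.add ?_ ?_) (PB.const 2)) ?_)
      (PB.const 2)) (hS.pow kG)) ?_) (PB.const 1)
    · exact ((PB.const 9).mul ((PB.const L).add pb_id)).add (PB.const 3)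
    · exact (((PB.const 4).mul ((PB.const L).add pb_id)).add (PB.const 3)).pow k0
    · exact (((PB.const Dm).mul pb_id).mul ((hS.pow kF).add (PB.const 9))).add (PB.const 1)
    · exact ((PB.const 12).mul (pb_id.add ((PB.const Dm).mul pb_id))).add (PB.const 4)
  obtain ⟨c, hc⟩ := pb_norm hB
  refine ⟨pairBits (ser (enc cd)) [], c, fun y x t hout => ?_⟩
  obtain ⟨hout⟩ := hout
  have hU : U cd y (Dm * t) = some x := U_codeOf M.inputAlphabet M.outputAlphabet y x t hout _ le_rfl
  obtain ⟨n, hn1, hn2, hn3, hn4⟩ := exists_halt hU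
  have hz : pairBits (ser (enc cd)) [] ++ y = pairBits (ser (enc cd)) y := by
    simp [pairBits]
  rw [hz]
  set z := pairBits (ser (enc cd)) y with hzdef
  have hzl : z.length = L + y.length := by
    rw [hzdef, pairBits_length]
  set m : ℕ := t + y.length with hm
  have hnm : n ≤ Dm * m := hn1.trans (Nat.mul_le_mul_left _ (by omega))
  -- sizes
  have hsz : ∀ i ≤ n, sz (cd, runU cd y i) + 2 ≤ 1 + sz cd + (sz cd + 4 * m + 4) ^ kI +
      Dm * m * (3 * sz cd.1 + 30) + 2 := by
    intro i hi
    rw [sz_pair]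
    have h1 := sz_runU cd y i
    have h2 : sz (initU cd y) ≤ (sz (cd, y) + 2) ^ kI := hkI (cd, y)
    have h3 : (sz (cd, y) + 2) ^ kI ≤ (sz cd + 4 * m + 4) ^ kI :=
      Nat.pow_le_pow_left (by have := sz_str_le y; rw [sz_pair]; omega) _
    have h4 : i * (3 * sz cd.1 + 30) ≤ Dm * m * (3 * sz cd.1 + 30) :=
      Nat.mul_le_mul_right _ (hi.trans hnm)
    omega
  -- the run
  have e1 := inP_spec z
  have e2 := hp0 z [] [] []
  rw [List.append_nil, List.append_nil] at e2
  have e3 := unpairP_spec (enc (u0 z).1) (enc (u0 z).2) [] [] []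
  rw [List.append_nil] at e3
  have hu0 : u0 z = (decide ((initU cd y).1 < cd.1.length), (cd, initU cd y)) := u0_pair cd y
  have e4 := loop_spec hpF ((1 + sz cd + (sz cd + 4 * m + 4) ^ kI +
      Dm * m * (3 * sz cd.1 + 30) + 2) ^ kF) n (u0 z) [] [] [] (fun i hi => by
    rw [hu0, iter_u]
    refine ⟨by simpa using hn2 i hi, ?_⟩
    exact (hcF _).trans (Nat.pow_le_pow_left (hsz i hi.le) _)) (by
    rw [hu0, iter_u]
    simpa using hn3)
  rw [hu0, iter_u, ← hu0, List.append_nil, List.append_nil] at e4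
  simp only at e4
  have e5 : EvL (.pop .m .skip .skip .skip)
      ⟨ser (enc false) ++ ser (enc (cd, runU cd y n)), [], [], [], []⟩
      ⟨ser (enc (cd, runU cd y n)), [], [], [], []⟩ 2 := EvL.pop (EvL.skip _)
  have e6 := hpG (cd, runU cd y n) [] [] []
  rw [List.append_nil, List.append_nil, hn4] at e6
  have e7 := outP_spec x
  have e8 := e1.seq (e2.seq (EvL.seq (S' := _) (by
    have : ser (Tr.node (enc (u0 z).1) (enc (u0 z).2)) = ser (enc (u0 z)) := rfl
    rw [this] at e3
    exact e3) ((by rw [List.append_nil]; exact e4 : EvL (loopP pF) _ _ _).seq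
      (e5.seq (e6.seq e7)))))
  obtain ⟨i, hi, hrun⟩ := e8
  obtain ⟨h5⟩ := finTM_outputs prog z x i hrun
  have hx : x.length ≤ m + Dm * m := by
    have h1 := U_length_le cd y (Dm * t)
    rw [hU] at h1
    have h2 : x.length ≤ y.length + Dm * t := h1
    have h3 : Dm * t ≤ Dm * m := Nat.mul_le_mul_left _ (by omega)
    omega
  have hbound : i + 1 ≤ (t + y.length + 2) ^ c := by
    refine le_trans ?_ (hc m)
    have b0 : c0 z ≤ (4 * (L + m) + 3) ^ k0 :=
      (hc0 z).trans (Nat.pow_le_pow_left (by have := sz_str_le z; omega) _)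
    have b1 : cG (cd, runU cd y n) ≤ (1 + sz cd + (sz cd + 4 * m + 4) ^ kI +
      Dm * m * (3 * sz cd.1 + 30) + 2) ^ kG := (hcG _).trans (Nat.pow_le_pow_left (hsz n le_rfl) _)
    have b2 : n * ((1 + sz cd + (sz cd + 4 * m + 4) ^ kI +
      Dm * m * (3 * sz cd.1 + 30) + 2) ^ kF + 9) ≤ Dm * m * ((1 + sz cd +
      (sz cd + 4 * m + 4) ^ kI + Dm * m * (3 * sz cd.1 + 30) + 2) ^ kF + 9) :=
      Nat.mul_le_mul_right _ hnm
    omega
  have e1' : List.map (Equiv.refl Bool).invFun z = z := by
    change List.map id z = z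
    simp
  have e2' : List.map (Equiv.refl Bool).invFun x = x := by
    change List.map id x = x
    simp
  refine ⟨?_⟩
  have h6 : ∀ (u v : List Bool), u = z → v = x →
      TM2OutputsInTime (finTM prog) u (some v) ((t + y.length + 2) ^ c) := by
    intro u v hu hv
    rw [hu, hv]
    exact ⟨h5.toEvalsTo, h5.steps_le_m.trans hbound⟩
  exact h6 _ _ e1' e2'

end Pool.Agent.H545R2.KS
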